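import Pool.Agent.Q193.WF.Main

/-!
# MP_c68506_an, Q1: positive answer

Every semitopological semigroup `S` such that `WAP(S)` has a left invariant mean has property (F):
every weakly separately continuous, weakly quasi-equicontinuous, `Q`-nonexpansive representation of
`S` on a nonempty weakly compact convex subset of a Hausdorff locally convex space has a common
fixed point.  No separability of `S` is needed.

Proof.  On a minimal weakly closed invariant subset `X` of a minimal invariant convex `K`, the mean
gives an invariant Radon probability measure `μ` (the orbit functions are weakly almost periodic by
Grothendieck's theorem on pointwise compact sets of continuous functions).  For a seminorm `p` of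
the family the function `x ↦ ∫ p(y - x) dμ(y)` is constant on `X` by minimality; the constant is
strictly less than the `p`-diameter of `X` unless that diameter is `0` (a measure argument using
Mazur's theorem), and the barycentre of `μ` then contradicts the minimality of `K`.
-/

namespace Pool.Agent.Results.MP_c68506_an.WeakNonexpansive

open Pool.Agent.Q193.WF

universe u v w

theorem result : ∀ (S : Type u) [Semigroup S] [TopologicalSpace S] [SemitopSemigroup S],
    (∃ m : WAP S →ₗ[ℝ] ℝ, IsLIM m) → PropertyF.{u, v, w} S := by
  rintro S _ _ _ ⟨m, hm⟩
  exact propertyF S m hm

end Pool.Agent.Results.MP_c68506_an.WeakNonexpansive
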